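import Mathlib
import Pool.Agent.BasisConst2.Renorm

/-!
# The basis constant need not be attained

Real and complex Banach spaces `X` with `β(X) = 1` in which every basis has basis constant
`> 1`: a space isomorphic to `c₀`, and a renorming of every Banach space with a basis which is
isomorphic to its direct sum with `c₀`.  Also (`notAttained_prod`): the `ℓ_∞`-direct sum of
the first space with any Banach space which has a basis with basis constant one.
-/

set_option autoImplicit false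

open Filter Topology ZeroAtInfty ENNReal

namespace Pool.Agent.Results.MP_90e313_an.Renormings

/-- `e` is a (Schauder) basis of `X`: every `x` has a unique expansion `x = ∑ aᵢ eᵢ`, the
series converging in norm. -/
def IsBasis (𝕜 : Type) [RCLike 𝕜] {X : Type} [NormedAddCommGroup X] [NormedSpace 𝕜 X]
    (e : ℕ → X) : Prop :=
  ∀ x : X, ∃! a : ℕ → 𝕜,
    Tendsto (fun n : ℕ => ∑ i ∈ Finset.range n, a i • e i) atTop (𝓝 x)

/-- The partial sum operator `S_n x = ∑_{i < n} aᵢ eᵢ`, where `(aᵢ)` are the coefficients of the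
expansion of `x`. -/
noncomputable def partialSum {𝕜 : Type} [RCLike 𝕜] {X : Type} [NormedAddCommGroup X]
    [NormedSpace 𝕜 X] {e : ℕ → X} (he : IsBasis 𝕜 e) (n : ℕ) (x : X) : X :=
  ∑ i ∈ Finset.range n, (he x).choose i • e i

/-- The basis constant `sup_{n ≥ 1} ‖S_n‖`, where `‖S_n‖ = sup {‖S_n x‖ : ‖x‖ ≤ 1}`, as an
element of `[0, ∞]`. -/
noncomputable def basisConst {𝕜 : Type} [RCLike 𝕜] {X : Type} [NormedAddCommGroup X]
    [NormedSpace 𝕜 X] {e : ℕ → X} (he : IsBasis 𝕜 e) : ℝ≥0∞ :=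
  ⨆ n : ℕ, ⨆ x : {x : X // ‖x‖ ≤ 1}, ENNReal.ofReal ‖partialSum he (n + 1) x‖

/-- The basis constant `β(X)` of the space: the infimum of the basis constants of its bases. -/
noncomputable def beta (𝕜 : Type) [RCLike 𝕜] (X : Type) [NormedAddCommGroup X]
    [NormedSpace 𝕜 X] : ℝ≥0∞ :=
  ⨅ e : ℕ → X, ⨅ he : IsBasis 𝕜 e, basisConst he

/-- `X` has a basis, `β(X) = 1`, and every basis of `X` has a basis constant `> β(X)`. -/
def NotAttained (𝕜 : Type) [RCLike 𝕜] (X : Type) [NormedAddCommGroup X]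
    [NormedSpace 𝕜 X] : Prop :=
  (∃ e : ℕ → X, IsBasis 𝕜 e) ∧ beta 𝕜 X = 1 ∧
    ∀ (e : ℕ → X) (he : IsBasis 𝕜 e), beta 𝕜 X < basisConst he

section

variable {𝕜 : Type} [RCLike 𝕜] {X : Type} [NormedAddCommGroup X] [NormedSpace 𝕜 X]

theorem choose_eq {e : ℕ → X} (he : IsBasis 𝕜 e) {x : X} {a : ℕ → 𝕜}
    (ha : Tendsto (fun n : ℕ => ∑ i ∈ Finset.range n, a i • e i) atTop (𝓝 x)) :
    (he x).choose = a :=
  ((he x).choose_spec.2 a ha).symm

theorem choose_tendsto {e : ℕ → X} (he : IsBasis 𝕜 e) (x : X) :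
    Tendsto (fun n : ℕ => ∑ i ∈ Finset.range n, (he x).choose i • e i) atTop (𝓝 x) :=
  (he x).choose_spec.1

theorem finite_tendsto {e : ℕ → X} (a : ℕ → 𝕜) (q : ℕ) :
    Tendsto (fun n : ℕ => ∑ i ∈ Finset.range n, (if i < q then a i else 0) • e i) atTop
      (𝓝 (∑ i ∈ Finset.range q, a i • e i)) := by
  refine tendsto_const_nhds.congr' ?_
  filter_upwards [eventually_ge_atTop q] with n hn
  obtain ⟨k, rfl⟩ : ∃ k, n = q + k := ⟨n - q, by omega⟩
  rw [Finset.sum_range_add]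
  have h1 : ∑ i ∈ Finset.range k, (if q + i < q then a (q + i) else 0) • e (q + i) = 0 := by
    apply Finset.sum_eq_zero
    intro i _
    rw [if_neg (by omega), zero_smul]
  rw [h1, add_zero]
  apply Finset.sum_congr rfl
  intro i hi
  rw [if_pos (Finset.mem_range.mp hi)]

theorem partialSum_finite {e : ℕ → X} (he : IsBasis 𝕜 e) (a : ℕ → 𝕜) {p q : ℕ} (hpq : p ≤ q) :
    partialSum he p (∑ i ∈ Finset.range q, a i • e i) = ∑ i ∈ Finset.range p, a i • e i := by
  unfold partialSum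
  rw [choose_eq he (finite_tendsto a q)]
  apply Finset.sum_congr rfl
  intro i hi
  have := Finset.mem_range.mp hi
  simp only [if_pos (by omega : i < q)]

theorem partialSum_smul {e : ℕ → X} (he : IsBasis 𝕜 e) (n : ℕ) (c : 𝕜) (x : X) :
    partialSum he n (c • x) = c • partialSum he n x := by
  unfold partialSum
  have h1 : Tendsto (fun n : ℕ => ∑ i ∈ Finset.range n, (c * (he x).choose i) • e i) atTop
      (𝓝 (c • x)) := by
    refine ((choose_tendsto he x).const_smul c).congr fun n => ?_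
    rw [Finset.smul_sum]
    apply Finset.sum_congr rfl
    intro i _
    rw [mul_smul]
  rw [choose_eq he h1, Finset.smul_sum]
  apply Finset.sum_congr rfl
  intro i _
  rw [mul_smul]

/-- `‖S_n x‖ ≤ K ‖x‖` if the basis constant is at most `K` -/
theorem norm_partialSum_le {e : ℕ → X} (he : IsBasis 𝕜 e) {K : ℝ} (hK : 0 ≤ K)
    (h : basisConst he ≤ ENNReal.ofReal K) (n : ℕ) (x : X) :
    ‖partialSum he n x‖ ≤ K * ‖x‖ := by
  rcases Nat.eq_zero_or_pos n with rfl | hn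
  · have : partialSum he 0 x = 0 := by simp [partialSum]
    rw [this, norm_zero]
    positivity
  obtain ⟨m, rfl⟩ : ∃ m, n = m + 1 := ⟨n - 1, by omega⟩
  rcases (norm_nonneg x).eq_or_lt with h0 | h0
  · have hx : x = 0 := norm_eq_zero.mp h0.symm
    have h1 := partialSum_smul he (m + 1) (0 : 𝕜) x
    rw [zero_smul, zero_smul] at h1
    rw [hx, h1, norm_zero, mul_zero]
  · have h1 : ‖((‖x‖⁻¹ : ℝ) : 𝕜) • x‖ ≤ 1 := by
      rw [norm_smul, RCLike.norm_ofReal, abs_of_nonneg (by positivity),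
        inv_mul_cancel₀ h0.ne']
    have h2 : ENNReal.ofReal ‖partialSum he (m + 1) (((‖x‖⁻¹ : ℝ) : 𝕜) • x)‖ ≤
        ENNReal.ofReal K := by
      refine le_trans ?_ h
      refine le_iSup_of_le m ?_
      exact le_iSup (fun x : {x : X // ‖x‖ ≤ 1} =>
        ENNReal.ofReal ‖partialSum he (m + 1) (x : X)‖) ⟨_, h1⟩
    rw [ENNReal.ofReal_le_ofReal_iff hK, partialSum_smul, norm_smul, RCLike.norm_ofReal,
      abs_of_nonneg (by positivity)] at h2
    have h3 := mul_le_mul_of_nonneg_left h2 h0.le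
    rw [← mul_assoc, mul_inv_cancel₀ h0.ne', one_mul] at h3
    linarith

theorem basisConst_le {e : ℕ → X} (he : IsBasis 𝕜 e) {K : ℝ} (hK : 0 ≤ K)
    (h : ∀ (b : ℕ → 𝕜) (p q : ℕ), p ≤ q →
      ‖∑ i ∈ Finset.range p, b i • e i‖ ≤ K * ‖∑ i ∈ Finset.range q, b i • e i‖) :
    basisConst he ≤ ENNReal.ofReal K := by
  refine iSup_le fun n => iSup_le fun x => ENNReal.ofReal_le_ofReal ?_
  obtain ⟨x, hx⟩ := x
  have h1 := choose_tendsto he x
  have h2 : ‖partialSum he (n + 1) x‖ ≤ K * ‖x‖ := by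
    refine ge_of_tendsto (h1.norm.const_mul K) ?_
    filter_upwards [eventually_ge_atTop (n + 1)] with k hk
    exact h _ _ _ hk
  calc ‖partialSum he (n + 1) x‖ ≤ K * ‖x‖ := h2
    _ ≤ K * 1 := mul_le_mul_of_nonneg_left hx hK
    _ = K := mul_one K

theorem mono_of_le_one {e : ℕ → X} (he : IsBasis 𝕜 e) (h : basisConst he ≤ 1) :
    BasisConst2.Mono 𝕜 e := by
  intro a m n hmn
  have h1 := norm_partialSum_le he zero_le_one (by rw [ENNReal.ofReal_one]; exact h) m
    (∑ i ∈ Finset.range n, a i • e i)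
  rw [partialSum_finite he a hmn, one_mul] at h1
  exact h1

theorem one_le_basisConst {e : ℕ → X} (he : IsBasis 𝕜 e) : 1 ≤ basisConst he := by
  have hne := BasisConst2.basis_ne_zero he 0
  have h0 : 0 < ‖e 0‖ := norm_pos_iff.mpr hne
  have h1 : ‖((‖e 0‖⁻¹ : ℝ) : 𝕜) • e 0‖ = 1 := by
    rw [norm_smul, RCLike.norm_ofReal, abs_of_nonneg (by positivity), inv_mul_cancel₀ h0.ne']
  refine le_iSup_of_le 0 (le_iSup_of_le ⟨_, h1.le⟩ ?_)
  change 1 ≤ ENNReal.ofReal ‖partialSum he (0 + 1) (((‖e 0‖⁻¹ : ℝ) : 𝕜) • e 0)‖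
  have h2 : partialSum he (0 + 1) (e 0) = e 0 := by
    have := partialSum_finite he (fun _ => (1 : 𝕜)) (p := 1) (q := 1) le_rfl
    simpa using this
  rw [partialSum_smul, h2, h1, ENNReal.ofReal_one]

/-- the criterion -/
theorem notAttained_of {P : X →ₗ[𝕜] BasisConst2.E 𝕜} {ι : BasisConst2.E 𝕜 →ₗ[𝕜] X}
    {ν : X → ℝ} (hC : BasisConst2.Comp 𝕜 X P ι ν)
    (hg : ∀ ε : ℝ, 0 < ε → ε < 1 → ∃ f : ℕ → X,
      (∀ x : X, ∃! b : ℕ → 𝕜,
        Tendsto (fun k : ℕ => ∑ i ∈ Finset.range k, b i • f i) atTop (𝓝 x)) ∧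
      ∀ (b : ℕ → 𝕜) (p q : ℕ), p ≤ q →
        ‖∑ i ∈ Finset.range p, b i • f i‖ ≤
          (1 / (1 - ε)) * ‖∑ i ∈ Finset.range q, b i • f i‖) :
    NotAttained 𝕜 X := by
  have hβ : beta 𝕜 X = 1 := by
    apply le_antisymm
    · refine ENNReal.le_of_forall_pos_le_add fun δ hδ _ => ?_
      have hδ' : (0 : ℝ) < δ := hδ
      have hε0 : 0 < (δ : ℝ) / (1 + δ) := by positivity
      have hε1 : (δ : ℝ) / (1 + δ) < 1 := by
        rw [div_lt_one (by positivity)]; linarith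
      obtain ⟨f, hf, hfK⟩ := hg _ hε0 hε1
      have heq : 1 / (1 - (δ : ℝ) / (1 + δ)) = 1 + δ := by
        have : (1 + (δ : ℝ)) ≠ 0 := by positivity
        have h2 : 1 - (δ : ℝ) / (1 + δ) = 1 / (1 + δ) := by field_simp; ring
        rw [h2, one_div_one_div]
      rw [heq] at hfK
      have h3 := basisConst_le (e := f) hf (K := 1 + δ) (by positivity) hfK
      have h4 : ENNReal.ofReal (1 + (δ : ℝ)) = 1 + δ := by
        rw [ENNReal.ofReal_add zero_le_one hδ'.le, ENNReal.ofReal_one, ENNReal.ofReal_coe_nnreal]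
      rw [h4] at h3
      exact (iInf₂_le f hf).trans h3
    · exact le_iInf fun e => le_iInf fun he => one_le_basisConst he
  refine ⟨?_, hβ, ?_⟩
  · obtain ⟨f, hf, -⟩ := hg (1 / 2) (by norm_num) (by norm_num)
    exact ⟨f, hf⟩
  · intro e he
    rw [hβ]
    by_contra hcon
    exact BasisConst2.no_monotone_basis hC he (mono_of_le_one he (not_lt.mp hcon))

end

/-- The space `E` of the construction: `β(E) = 1` is not attained. -/
theorem notAttained_E (𝕜 : Type) [RCLike 𝕜] : NotAttained 𝕜 (BasisConst2.E 𝕜) := by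
  refine notAttained_of (BasisConst2.comp_self 𝕜) ?_
  intro ε hε0 hε1
  obtain ⟨f, hf, hf0, hfK⟩ := BasisConst2.good_basis 𝕜 ε hε0 hε1
  exact ⟨f, BasisConst2.unique_expansion hf hf0 hfK, hfK⟩

/-- For every Banach space `Y` which has a basis with basis constant `1`, `β(Y × E) = 1` is not
attained (`Y × E` with the maximum norm). -/
theorem notAttained_prod (𝕜 : Type) [RCLike 𝕜] (Y : Type) [NormedAddCommGroup Y]
    [NormedSpace 𝕜 Y] [CompleteSpace Y]
    (h : ∃ (e : ℕ → Y) (he : IsBasis 𝕜 e), basisConst he = 1) :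
    NotAttained 𝕜 (Y × BasisConst2.E 𝕜) := by
  obtain ⟨e, he, hK⟩ := h
  refine notAttained_of (BasisConst2.comp_prod 𝕜 Y) ?_
  exact BasisConst2.good_basis_prod 𝕜 he (mono_of_le_one he hK.le)
    (fun i => BasisConst2.basis_ne_zero he i)

/-- **Theorem.** Let `𝕜` be `ℝ` or `ℂ`.  There is a Banach space `E` over `𝕜`, isomorphic to
`c₀`, such that `β(E) = 1` is not attained.  More generally every Banach space `Y` over `𝕜`
which has a basis and is isomorphic to `Y × c₀` is isomorphic to a Banach space `X` such that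
`β(X) = 1` is not attained. -/
theorem result (𝕜 : Type) [RCLike 𝕜] :
    (∃ (E : Type) (_ : NormedAddCommGroup E) (_ : NormedSpace 𝕜 E) (_ : CompleteSpace E),
      Nonempty (E ≃L[𝕜] C₀(ℕ, 𝕜)) ∧ NotAttained 𝕜 E) ∧
    (∀ (Y : Type) [NormedAddCommGroup Y] [NormedSpace 𝕜 Y] [CompleteSpace Y],
      (∃ e : ℕ → Y, IsBasis 𝕜 e) → Nonempty (Y ≃L[𝕜] Y × C₀(ℕ, 𝕜)) →
        ∃ (X : Type) (_ : NormedAddCommGroup X) (_ : NormedSpace 𝕜 X) (_ : CompleteSpace X),
          Nonempty (X ≃L[𝕜] Y) ∧ NotAttained 𝕜 X) := by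
  refine ⟨⟨BasisConst2.E 𝕜, inferInstance, inferInstance, inferInstance,
    ⟨BasisConst2.isoC 𝕜⟩, notAttained_E 𝕜⟩, ?_⟩
  rintro Y _ _ _ ⟨e, he⟩ ⟨φ⟩
  have hne : ∀ i, e i ≠ 0 := fun i => BasisConst2.basis_ne_zero he i
  have := BasisConst2.complete_V (𝕜 := 𝕜) e
  obtain ⟨ψ⟩ := BasisConst2.iso_V he
  refine ⟨BasisConst2.V 𝕜 e × BasisConst2.E 𝕜, inferInstance, inferInstance, inferInstance,
    ⟨(ψ.prodCongr (BasisConst2.isoC 𝕜)).trans φ.symm⟩, ?_⟩
  refine notAttained_of (BasisConst2.comp_prod 𝕜 (BasisConst2.V 𝕜 e)) ?_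
  exact BasisConst2.good_basis_prod 𝕜 (BasisConst2.basis_eV hne) (BasisConst2.mono_eV e)
    (BasisConst2.eV_ne_zero hne)

end Pool.Agent.Results.MP_90e313_an.Renormings
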